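import Pool.Agent.TH900.QM.Meas

/-!
# The numbers `8 G ± 5 π²/6`

`G = ∑ (-1)^j/(2j+1)^2` is Catalan's constant. The numbers `8 G + 5 π²/6 = ψ'(1/4) - ζ(2)` and
`8 G - 5 π²/6 = ζ(2) - ψ'(3/4)` are irrational, with irrationality exponent at most `586`.
-/

set_option autoImplicit false

namespace Pool.Agent.Results.MP_631c0d_nt.CatalanPiSquaredMeasure

/-- For both signs `8 G ± 5 π²/6` is irrational, and there is `c > 0` such that its distance from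
every fraction `a / b`, `b ≥ 1`, is at least `c / b ^ 586`. So no number `r ± 5 π²/48` with `r`
rational is Catalan's constant `G`. -/
theorem result :
    ∀ s : ℝ, s = 1 ∨ s = -1 →
      Irrational (8 * (∑' j : ℕ, (-1 : ℝ) ^ j / (2 * (j : ℝ) + 1) ^ 2) +
        s * (5 * Real.pi ^ 2 / 6)) ∧
      ∃ c : ℝ, 0 < c ∧ ∀ (a : ℤ) (b : ℕ), 0 < b →
        c / (b : ℝ) ^ 586 ≤ |8 * (∑' j : ℕ, (-1 : ℝ) ^ j / (2 * (j : ℝ) + 1) ^ 2) +
          s * (5 * Real.pi ^ 2 / 6) - (a : ℝ) / b| := by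
  intro s hs
  obtain ⟨c, hc, h⟩ := Pool.Agent.TH900.QM.main s hs
  have h' : ∀ (a : ℤ) (b : ℕ), 0 < b →
        c / (b : ℝ) ^ 586 ≤ |8 * (∑' j : ℕ, (-1 : ℝ) ^ j / (2 * (j : ℝ) + 1) ^ 2) +
          s * (5 * Real.pi ^ 2 / 6) - (a : ℝ) / b| := h
  refine ⟨?_, c, hc, h'⟩
  rintro ⟨q, hq⟩
  have h1 := h' q.num q.den q.den_pos
  have h2 : ((q.num : ℤ) : ℝ) / (q.den : ℝ) = (q : ℝ) := by
    exact_mod_cast (Rat.num_div_den q)
  rw [h2, ← hq, sub_self, abs_zero] at h1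
  have h3 : 0 < c / (q.den : ℝ) ^ 586 := by
    have : (0 : ℝ) < q.den := by exact_mod_cast q.den_pos
    positivity
  exact absurd h1 (not_le.2 h3)

end Pool.Agent.Results.MP_631c0d_nt.CatalanPiSquaredMeasure
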